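import Mathlib

set_option autoImplicit false

namespace Pool.Agent.H.MP_78373f_an
open Finset ArithmeticFunction

noncomputable section

variable {G : Type} [CommGroup G]

abbrev RG (G : Type) [CommGroup G] := MonoidAlgebra ℤ G

def o (a : G) : RG G := MonoidAlgebra.of ℤ G a

lemma o_mul (a b : G) : o (a * b) = o a * o b := map_mul _ _ _
lemma o_pow (a : G) (k : ℕ) : o (a ^ k) = o a ^ k := map_pow _ _ _
lemma o_one : o (1 : G) = 1 := map_one _
lemma o_prod {ι : Type} (s : Finset ι) (f : ι → G) : o (∏ i ∈ s, f i) = ∏ i ∈ s, o (f i) :=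
  map_prod (MonoidAlgebra.of ℤ G) _ _

lemma co_mul (x : RG G) (a g : G) : (x * o a).coeff g = x.coeff (g * a⁻¹) := by
  simp [o, MonoidAlgebra.of_apply]

def Sup (H : Subgroup G) (x : RG G) : Prop := ∀ g, x.coeff g ≠ 0 → g ∈ H

lemma Sup.mono {H K : Subgroup G} {x : RG G} (h : Sup H x) (hk : H ≤ K) : Sup K x :=
  fun g hg => hk (h g hg)

lemma Sup.mul {H : Subgroup G} {x y : RG G} (hx : Sup H x) (hy : Sup H y) : Sup H (x * y) := by
  classical
  intro g hg
  have := MonoidAlgebra.support_coeff_mul_subset x y (Finsupp.mem_support_iff.2 hg)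
  obtain ⟨a, ha, b, hb, rfl⟩ := Finset.mem_mul.1 this
  exact H.mul_mem (hx a (Finsupp.mem_support_iff.1 ha)) (hy b (Finsupp.mem_support_iff.1 hb))

lemma Sup.o {H : Subgroup G} {a : G} (ha : a ∈ H) : Sup H (o a) := by
  classical
  intro g hg
  simp only [Pool.Agent.H.MP_78373f_an.o, MonoidAlgebra.of_apply, MonoidAlgebra.coeff_single,
    Finsupp.single_apply] at hg
  by_cases h : a = g
  · exact h ▸ ha
  · simp [h] at hg

lemma Sup.one (H : Subgroup G) : Sup H 1 := by
  rw [← o_one]; exact Sup.o H.one_mem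

lemma Sup.add {H : Subgroup G} {x y : RG G} (hx : Sup H x) (hy : Sup H y) : Sup H (x + y) := by
  intro g hg
  by_cases h : x.coeff g = 0
  · apply hy g; intro h'; apply hg; simp [h, h']
  · exact hx g h

lemma Sup.sub {H : Subgroup G} {x y : RG G} (hx : Sup H x) (hy : Sup H y) : Sup H (x - y) := by
  intro g hg
  by_cases h : x.coeff g = 0
  · apply hy g; intro h'; apply hg; simp [h, h']
  · exact hx g h

lemma Sup.sum {H : Subgroup G} {ι : Type} (s : Finset ι) (f : ι → RG G)
    (h : ∀ i ∈ s, Sup H (f i)) : Sup H (∑ i ∈ s, f i) :=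
  Finset.sum_induction f (Sup H) (fun _ _ => Sup.add) (fun g hg => by simp at hg) h

lemma Sup.prod {H : Subgroup G} {ι : Type} (s : Finset ι) (f : ι → RG G)
    (h : ∀ i ∈ s, Sup H (f i)) : Sup H (∏ i ∈ s, f i) :=
  Finset.prod_induction f (Sup H) (fun _ _ => Sup.mul) (Sup.one H) h

def F (a : G) (m : ℕ) : RG G := if m = 0 then 1 - o a else ∑ j ∈ range m, o (a ^ j)

def w (m : ℕ) : ℕ := if m = 0 then 1 else cardFactors m

lemma Sup.F {H : Subgroup G} {a : G} (ha : a ∈ H) (m : ℕ) : Sup H (F a m) := by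
  unfold Pool.Agent.H.MP_78373f_an.F
  split_ifs
  · exact (Sup.one H).sub (Sup.o ha)
  · exact Sup.sum _ _ fun j _ => Sup.o (H.pow_mem ha j)

lemma geo (a : G) (m : ℕ) : (∑ j ∈ range m, o (a ^ j)) * (1 - o a) = 1 - o (a ^ m) := by
  simp only [o_pow]
  exact geom_sum_mul_neg (o a) m

lemma b1 {H : Subgroup G} {y : RG G} (hy : Sup H y) (h0 : y ≠ 0) {a : G}
    (h : y * (1 - o a) = 0) : a ∈ H := by
  obtain ⟨g, hg⟩ : ∃ g, y.coeff g ≠ 0 := by
    by_contra hc
    push Not at hc
    exact h0 (MonoidAlgebra.coeff_injective (Finsupp.ext hc))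
  have e : y = y * o a := by linear_combination h
  have : y.coeff (g * a) = y.coeff g := by
    conv_lhs => rw [e]
    rw [co_mul]; simp
  have h1 := hy (g * a) (by rw [this]; exact hg)
  have := H.mul_mem (H.inv_mem (hy g hg)) h1
  simpa using this

lemma om_mono {a b : ℕ} (hb : b ≠ 0) (h : a ∣ b) : cardFactors a ≤ cardFactors b := by
  obtain ⟨c, rfl⟩ := h
  rw [cardFactors_mul (left_ne_zero_of_mul hb) (right_ne_zero_of_mul hb)]; omega

lemma om_lt {a b : ℕ} (hb : b ≠ 0) (h : a ∣ b) (hne : a ≠ b) : cardFactors a < cardFactors b := by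
  obtain ⟨c, rfl⟩ := h
  rw [cardFactors_mul (left_ne_zero_of_mul hb) (right_ne_zero_of_mul hb)]
  have : 0 < cardFactors c := by
    rw [cardFactors_pos_iff_one_lt]
    have := right_ne_zero_of_mul hb
    rcases Nat.lt_trichotomy c 1 with h | h | h
    · omega
    · subst h; simp at hne
    · exact h
  omega

lemma mem_iff_dvd (H : Subgroup G) (a : G) (j : ℕ) :
    a ^ j ∈ H ↔ orderOf (QuotientGroup.mk' H a) ∣ j := by
  rw [orderOf_dvd_iff_pow_eq_one, ← map_pow, QuotientGroup.mk'_apply, QuotientGroup.eq_one_iff]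

lemma b2 {H : Subgroup G} {y : RG G} (hy : Sup H y) (h0 : y ≠ 0) {a : G} {m : ℕ}
    (h : y * F a m = 0) : ∃ d, d ≠ 0 ∧ a ^ d ∈ H ∧ cardFactors d + 1 ≤ w m := by
  by_cases hm : m = 0
  · simp only [F, hm, if_true] at h
    exact ⟨1, one_ne_zero, by simpa using b1 hy h0 h, by simp [w, hm]⟩
  simp only [F, hm, if_false] at h
  have h1 : a ^ m ∈ H := b1 hy h0 (by rw [← geo, ← mul_assoc, h, zero_mul])
  have hd := (mem_iff_dvd H a m).1 h1
  refine ⟨orderOf (QuotientGroup.mk' H a), fun e => hm (by rw [e] at hd; exact zero_dvd_iff.1 hd),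
    (mem_iff_dvd H a _).2 dvd_rfl, ?_⟩
  simp only [w, hm, if_false]
  refine om_lt hm hd fun e => ?_
  obtain ⟨g, hg⟩ : ∃ g, y.coeff g ≠ 0 := by
    by_contra hc
    push Not at hc
    exact h0 (MonoidAlgebra.coeff_injective (Finsupp.ext hc))
  have := congrArg (fun z : RG G => z.coeff g) h
  simp only [mul_sum, MonoidAlgebra.coeff_sum, Finsupp.coe_finsetSum, Finset.sum_apply, co_mul,
    MonoidAlgebra.coeff_zero, Finsupp.coe_zero, Pi.zero_apply] at this
  rw [Finset.sum_eq_single 0] at this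
  · simp at this; exact hg this
  · intro j hj hj0
    by_contra hc
    have h2 := hy _ hc
    have h3 : a ^ j ∈ H := by
      have := H.mul_mem (H.inv_mem h2) (hy g hg)
      simpa using this
    have := Nat.le_of_dvd (Nat.pos_of_ne_zero hj0) ((mem_iff_dvd H a j).1 h3)
    have := mem_range.1 hj
    omega
  · intro h; exact absurd (mem_range.2 (Nat.pos_of_ne_zero hm)) h

def len (H : Subgroup G) : ℕ := cardFactors (Nat.card H)

variable [Finite G]

lemma len_mono {H K : Subgroup G} (h : H ≤ K) : len H ≤ len K :=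
  om_mono Nat.card_pos.ne' (Subgroup.card_dvd_of_le h)

lemma len_sup {H K : Subgroup G} {a : G} {d : ℕ} (hd : d ≠ 0) (ha : a ^ d ∈ H)
    (hK : K ≤ H ⊔ Subgroup.zpowers a) : len K ≤ len H + cardFactors d := by
  refine (len_mono hK).trans ?_
  have e1 : Nat.card ↥(H ⊔ Subgroup.zpowers a) =
      Nat.card H * orderOf (QuotientGroup.mk' H a) := by
    rw [← Subgroup.relIndex_bot_left, ← Subgroup.relIndex_mul_relIndex ⊥ H _ bot_le le_sup_left,
      Subgroup.relIndex_bot_left, Subgroup.relIndex_sup_left]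
    congr 1
    conv_lhs => rw [← QuotientGroup.ker_mk' H]
    rw [Subgroup.relIndex_ker, MonoidHom.map_zpowers, Nat.card_zpowers]
  have hdv := (mem_iff_dvd H a d).1 ha
  unfold len
  rw [e1, cardFactors_mul Nat.card_pos.ne' (fun e => hd (by rw [e] at hdv; exact zero_dvd_iff.1 hdv))]
  have := om_mono hd hdv
  omega

lemma exmin {R ι : Type} [CommRing R] [DecidableEq ι] (x : R) (s : Finset ι) (f : ι → R)
    (h : x * ∏ i ∈ s, f i = 0) :
    ∃ I ⊆ s, x * ∏ i ∈ I, f i = 0 ∧ ∀ i ∈ I, x * ∏ j ∈ I.erase i, f j ≠ 0 := by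
  classical
  obtain ⟨I, hI, hmin⟩ := Finset.exists_min_image
    (s.powerset.filter fun I => x * ∏ i ∈ I, f i = 0) card ⟨s, by simp [h]⟩
  simp only [mem_filter, mem_powerset] at hI hmin
  refine ⟨I, hI.1, hI.2, fun i hi hc => ?_⟩
  have := hmin (I.erase i) ⟨(erase_subset _ _).trans hI.1, hc⟩
  have := card_erase_lt_of_mem hi
  omega

def gen {ι : Type} (H : Subgroup G) (s : Finset ι) (a : ι → G) : Subgroup G :=
  H ⊔ Subgroup.closure (a '' s)

omit [Finite G] in
lemma le_gen {ι : Type} (H : Subgroup G) (s : Finset ι) (a : ι → G) : H ≤ gen H s a := le_sup_left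

omit [Finite G] in
lemma mem_gen {ι : Type} (H : Subgroup G) {s : Finset ι} (a : ι → G) {i : ι} (hi : i ∈ s) :
    a i ∈ gen H s a :=
  (le_sup_right : _ ≤ gen H s a) (Subgroup.subset_closure ⟨i, hi, rfl⟩)

omit [Finite G] in
lemma gen_le {ι : Type} {H K : Subgroup G} {s : Finset ι} {a : ι → G} (h : H ≤ K)
    (ha : ∀ i ∈ s, a i ∈ K) : gen H s a ≤ K := by
  refine sup_le h ((Subgroup.closure_le K).2 ?_)
  rintro _ ⟨i, hi, rfl⟩
  exact ha i hi

def mu {ι : Type} (s : Finset ι) (a : ι → G) (m : ι → ℕ) : ℕ :=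
  ∑ i ∈ s, (2 * orderOf (a i) + if m i = 0 then 0 else 1)

lemma hl {ι : Type} [DecidableEq ι] (N : ℕ) : ∀ (H : Subgroup G) (x : RG G) (s : Finset ι)
    (a : ι → G) (m : ι → ℕ), mu s a m < N → s.Nonempty → Sup H x →
    x * ∏ i ∈ s, F (a i) (m i) = 0 → (∀ i ∈ s, x * ∏ j ∈ s.erase i, F (a j) (m j) ≠ 0) →
    len (gen H s a) < len H + ∑ i ∈ s, w (m i) := by
  induction N with
  | zero => intro _ _ _ _ _ h; omega
  | succ N ih =>
  intro H x s a m hmu hs hx h0 hne
  by_cases htriv : ∀ i ∈ s, m i = 0 ∧ a i ∈ H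
  · have h1 := len_mono (gen_le (le_refl H) fun i hi => (htriv i hi).2)
    obtain ⟨i, hi⟩ := hs
    have h2 : w (m i) ≤ ∑ i ∈ s, w (m i) :=
      single_le_sum (f := fun i => w (m i)) (fun _ _ => Nat.zero_le _) hi
    have h3 : w (m i) = 1 := by simp [w, (htriv i hi).1]
    omega
  push Not at htriv
  obtain ⟨i, hi, hi'⟩ := htriv
  obtain ⟨q, hq0, hqw, ⟨c, hc⟩, hlt⟩ : ∃ q, q ≠ 0 ∧ cardFactors q = w (m i) ∧
      (∃ c, 1 - o (a i ^ q) = F (a i) (m i) * c) ∧
      2 * orderOf (a i ^ q) < 2 * orderOf (a i) + if m i = 0 then 0 else 1 := by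
    by_cases hm : m i = 0
    · have hnot := hi' hm
      have h1 : orderOf (a i) ≠ 1 := fun e => hnot (by rw [orderOf_eq_one_iff.1 e]; exact H.one_mem)
      obtain ⟨q, hq, hdv⟩ := Nat.exists_prime_and_dvd h1
      refine ⟨q, hq.ne_zero, by simp [w, hm, hq], ⟨∑ j ∈ range q, o (a i ^ j), ?_⟩, ?_⟩
      · simp only [F, hm, if_true]; rw [mul_comm, geo]
      · simp only [hm, if_true, add_zero]
        rw [orderOf_pow_of_dvd hq.ne_zero hdv]
        have := Nat.div_lt_self (orderOf_pos (a i)) hq.one_lt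
        omega
    · refine ⟨m i, hm, by simp [w, hm], ⟨1 - o (a i), ?_⟩, ?_⟩
      · simp only [F, hm, if_false]; rw [geo]
      · simp only [hm, if_false]
        have := Nat.le_of_dvd (orderOf_pos (a i)) (orderOf_pow_dvd (x := a i) (m i))
        omega
  set a' := Function.update a i (a i ^ q) with ha'
  set m' := Function.update m i 0 with hm'
  have hF : ∀ j, j ≠ i → F (a' j) (m' j) = F (a j) (m j) := fun j hj => by
    simp [ha', hm', Function.update_of_ne hj]
  have hFi : F (a' i) (m' i) = F (a i) (m i) * c := by rw [← hc]; simp [ha', hm', F]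
  have hP : ∀ t : Finset ι, ∏ j ∈ t.erase i, F (a' j) (m' j) = ∏ j ∈ t.erase i, F (a j) (m j) :=
    fun t => prod_congr rfl fun j hj => hF j (ne_of_mem_erase hj)
  have h0' : x * ∏ j ∈ s, F (a' j) (m' j) = 0 := by
    rw [← mul_prod_erase s _ hi] at h0 ⊢
    rw [hP, hFi]; linear_combination c * h0
  obtain ⟨I, hIs, hI0, hIne⟩ := exmin x s _ h0'
  have hiI : i ∈ I := by
    by_contra hc'
    apply hne i hi
    have hsub : I ⊆ s.erase i := fun j hj => mem_erase.2 ⟨fun e => hc' (e ▸ hj), hIs hj⟩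
    rw [← hP, ← prod_sdiff hsub]
    linear_combination (∏ j ∈ s.erase i \ I, F (a' j) (m' j)) * hI0
  have hmuI : mu I a' m' < N := by
    have e1 : mu I a' m' < mu I a m := by
      unfold mu
      rw [← add_sum_erase I _ hiI, ← add_sum_erase I _ hiI]
      have : ∑ j ∈ I.erase i, (2 * orderOf (a' j) + if m' j = 0 then 0 else 1) =
          ∑ j ∈ I.erase i, (2 * orderOf (a j) + if m j = 0 then 0 else 1) :=
        sum_congr rfl fun j hj => by simp [ha', hm', Function.update_of_ne (ne_of_mem_erase hj)]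
      rw [this]
      simp only [ha', hm', Function.update_self, if_true]
      omega
    have e2 : mu I a m ≤ mu s a m := sum_le_sum_of_subset hIs
    omega
  have key := ih H x I a' m' hmuI ⟨i, hiI⟩ hx hI0 hIne
  have hw : ∑ j ∈ I, w (m' j) + w (m i) = ∑ j ∈ I, w (m j) + 1 := by
    rw [← add_sum_erase I _ hiI, ← add_sum_erase I (fun j => w (m j)) hiI]
    have : ∑ j ∈ I.erase i, w (m' j) = ∑ j ∈ I.erase i, w (m j) :=
      sum_congr rfl fun j hj => by simp [hm', Function.update_of_ne (ne_of_mem_erase hj)]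
    rw [this]
    have : w (m' i) = 1 := by simp [hm', w]
    omega
  have hgen : ∀ j ∈ I, j ≠ i → a j ∈ gen H I a' := fun j hj hji => by
    have := mem_gen H a' hj
    simpa [ha', Function.update_of_ne hji] using this
  have hsup : ∀ (K : Subgroup G), H ≤ K → (∀ j ∈ I, j ≠ i → a j ∈ K) →
      gen H I a ≤ K ⊔ Subgroup.zpowers (a i) := fun K hK hj =>
    gen_le (hK.trans le_sup_left) fun j hjI => by
      by_cases e : j = i
      · subst e; exact Subgroup.mem_sup_right (Subgroup.mem_zpowers _)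
      · exact Subgroup.mem_sup_left (hj j hjI e)
  by_cases hIe : I = s
  · subst hIe
    have hy : Sup (gen H I a') (x * ∏ j ∈ I.erase i, F (a j) (m j)) :=
      (hx.mono (le_gen _ _ _)).mul (Sup.prod _ _ fun j hj =>
        Sup.F (hgen j (mem_of_mem_erase hj) (ne_of_mem_erase hj)) _)
    obtain ⟨d, hd0, hd, hdw⟩ := b2 (a := a i) (m := m i) hy (hne i hi) (by
      rw [← mul_prod_erase I _ hi] at h0; linear_combination h0)
    have := len_sup hd0 hd (hsup _ (le_gen _ _ _) hgen)
    omega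
  · have h1 : len (gen H I a) ≤ len (gen H I a') + cardFactors q := by
      refine len_sup hq0 ?_ (hsup _ (le_gen _ _ _) hgen)
      have := mem_gen H a' hiI
      simpa [ha'] using this
    have hne' : (s \ I).Nonempty := sdiff_nonempty.2 fun h => hIe (subset_antisymm hIs h)
    have h2 := ih (gen H I a) (x * ∏ j ∈ I, F (a j) (m j)) (s \ I) a m (by
        have e : mu (s \ I) a m + mu I a m = mu s a m := sum_sdiff hIs
        have : 2 * orderOf (a i) + (if m i = 0 then 0 else 1) ≤ mu I a m :=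
          single_le_sum (f := fun j => 2 * orderOf (a j) + if m j = 0 then 0 else 1)
            (fun _ _ => Nat.zero_le _) hiI
        omega) hne'
      ((hx.mono (le_gen _ _ _)).mul (Sup.prod _ _ fun j hj => Sup.F (mem_gen H a hj) _))
      (by rw [← prod_sdiff hIs] at h0; linear_combination h0)
      (fun j hj hc' => hne j (mem_sdiff.1 hj).1 (by
        have hsub : I ⊆ s.erase j := fun k hk =>
          mem_erase.2 ⟨fun e => (mem_sdiff.1 hj).2 (e ▸ hk), hIs hk⟩
        have : s.erase j \ I = (s \ I).erase j := by ext k; simp; tauto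
        rw [← prod_sdiff hsub, this]; linear_combination hc'))
    have h3 : len (gen H s a) ≤ len (gen (gen H I a) (s \ I) a) :=
      len_mono (gen_le ((le_gen _ _ _).trans (le_gen _ _ _)) fun j hj => by
        by_cases e : j ∈ I
        · exact le_gen _ _ _ (mem_gen H a e)
        · exact mem_gen _ a (mem_sdiff.2 ⟨hj, e⟩))
    have h4 : ∑ j ∈ s \ I, w (m j) + ∑ j ∈ I, w (m j) = ∑ j ∈ s, w (m j) := sum_sdiff hIs
    omega

def ps (H : Subgroup G) (x : RG G) : ℤ := ∑ᶠ g : H, x.coeff g

omit [Finite G] in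
lemma ps_o (H : Subgroup G) (x : RG G) {h : G} (hh : h ∈ H) : ps H (x * o h) = ps H x := by
  unfold ps
  simp only [co_mul]
  exact finsum_comp_equiv (Equiv.mulRight (⟨h, hh⟩ : H)⁻¹) (f := fun g : H => x.coeff g)

lemma ps_sum (H : Subgroup G) {ι : Type} (s : Finset ι) (f : ι → RG G) :
    ps H (∑ i ∈ s, f i) = ∑ i ∈ s, ps H (f i) := by
  have := Fintype.ofFinite H
  unfold ps
  simp only [finsum_eq_sum_of_fintype, MonoidAlgebra.coeff_sum, Finsupp.coe_finsetSum,
    Finset.sum_apply]
  exact sum_comm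

theorem hajos {ι : Type} [Fintype ι] [DecidableEq ι] [Nonempty ι] (a : ι → G) (m : ι → ℕ)
    (hm : ∀ i, m i ≠ 0)
    (hinj : Set.InjOn (fun e : ι → ℕ => ∏ i, a i ^ e i) (Fintype.piFinset fun i => range (m i)))
    (hsur : ∀ g, ∃ e ∈ Fintype.piFinset fun i => range (m i), ∏ i, a i ^ e i = g) :
    ∃ i, a i ^ m i = 1 := by
  classical
  have := Fintype.ofFinite G
  by_contra hcon
  push Not at hcon
  set E : Finset ι → Finset (ι → ℕ) := fun T =>
    Fintype.piFinset fun i => if i ∈ T then range (m i) else {0} with hE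
  have hA : ∀ T : Finset ι, ∏ i ∈ T, F (a i) (m i) = ∑ e ∈ E T, o (∏ i, a i ^ e i) := by
    intro T
    simp only [o_prod, hE]
    rw [← prod_univ_sum (fun i => if i ∈ T then range (m i) else {0}) (fun i j => o (a i ^ j)),
      ← prod_subset (subset_univ T)]
    · exact prod_congr rfl fun i hi => by simp [F, hm i, hi]
    · intro i _ hi; simp [hi, o_one]
  have hEc : ∀ T : Finset ι, (E T).card = ∏ i ∈ T, m i := by
    intro T
    simp only [hE, Fintype.card_piFinset]
    rw [← prod_subset (subset_univ T)]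
    · exact prod_congr rfl fun i hi => by simp [hi]
    · intro i _ hi; simp [hi]
  have hEs : ∀ T : Finset ι, E T ⊆ Fintype.piFinset fun i => range (m i) := by
    intro T
    apply Fintype.piFinset_subset
    intro i
    split_ifs
    · exact subset_refl _
    · simpa using Nat.pos_of_ne_zero (hm i)
  have hEm : ∀ T : Finset ι, ∀ e ∈ E T, ∏ i, a i ^ e i ∈ gen ⊥ T a := by
    intro T e he
    refine Subgroup.prod_mem _ fun i _ => ?_
    by_cases hi : i ∈ T
    · exact Subgroup.pow_mem _ (mem_gen _ a hi) _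
    · have := Fintype.mem_piFinset.1 he i
      simp only [hi, if_false, mem_singleton] at this
      simp [this]
  have hps : ∀ (T : Finset ι) (y : RG G), ps (gen ⊥ T a) (y * ∏ i ∈ T, F (a i) (m i)) =
      (∏ i ∈ T, m i : ℕ) * ps (gen ⊥ T a) y := by
    intro T y
    rw [hA, mul_sum, ps_sum, sum_congr rfl fun e he => ps_o _ y (hEm T e he), sum_const, hEc]
    simp
  have himg : ∀ (T : Finset ι) (K : Subgroup G), gen ⊥ T a ≤ K →
      Nat.card K ≤ ∏ i ∈ T, m i → ∏ i ∈ T, F (a i) (m i) = ∑ g : K, o (g : G) := by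
    intro T K hK hc
    rw [hA]
    have hi : Set.InjOn (fun e : ι → ℕ => ∏ i, a i ^ e i) (E T) := hinj.mono (hEs T)
    rw [← sum_image (f := fun g => o g) hi]
    have : (E T).image (fun e : ι → ℕ => ∏ i, a i ^ e i) = univ.filter (· ∈ K) := by
      apply eq_of_subset_of_card_le
      · intro g hg
        obtain ⟨e, he, rfl⟩ := mem_image.1 hg
        simpa using hK (hEm T e he)
      · rw [card_image_of_injOn hi, hEc, ← Fintype.card_subtype, ← Nat.card_eq_fintype_card]
        exact hc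
    rw [this]
    exact sum_subtype _ (by simp) _
  have hall : ∏ i, F (a i) (m i) = ∑ g : (⊤ : Subgroup G), o (g : G) := by
    apply himg _ _ le_top
    rw [← hEc univ, Subgroup.card_top, Nat.card_eq_fintype_card, ← card_univ]
    refine card_le_card_of_surjOn (fun e : ι → ℕ => ∏ i, a i ^ e i) fun g _ => ?_
    obtain ⟨e, he, rfl⟩ := hsur g
    exact ⟨e, by simpa [hE] using he, rfl⟩
  have hinv : ∀ (K : Subgroup G) (h : G), h ∈ K → (∑ g : K, o (g : G)) * (1 - o h) = 0 := by
    intro K h hh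
    rw [mul_sub, mul_one, sum_mul, sub_eq_zero]
    simp only [← o_mul]
    exact (Equiv.sum_comp (Equiv.mulRight (⟨h, hh⟩ : K)) (fun g : K => o (g : G))).symm
  have hpsK : ∀ K : Subgroup G, ps K (∑ g : (⊤ : Subgroup G), o (g : G)) = Nat.card K := by
    intro K
    have : ∀ h : G, (∑ g : (⊤ : Subgroup G), o (g : G)).coeff h = 1 := by
      intro h
      simp only [MonoidAlgebra.coeff_sum, Finsupp.coe_finsetSum, Finset.sum_apply, o,
        MonoidAlgebra.of_apply, MonoidAlgebra.coeff_single, Finsupp.single_apply]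
      rw [sum_eq_single ⟨h, trivial⟩]
      · simp
      · intro b _ hb; rw [if_neg]; exact fun e => hb (Subtype.ext e)
      · simp
    unfold ps
    simp only [this, finsum_eq_sum_of_fintype]
    simp
  have hprod0 : ∀ T : Finset ι, ∏ i ∈ T, m i ≠ 0 := fun T => prod_ne_zero_iff.2 fun i _ => hm i
  have hom : ∀ T : Finset ι, cardFactors (∏ i ∈ T, m i) = ∑ i ∈ T, w (m i) := by
    intro T
    induction T using Finset.induction_on with
    | empty => simp
    | insert i T hi ih =>
      rw [prod_insert hi, sum_insert hi, cardFactors_mul (hm i) (hprod0 T), ih]; simp [w, hm i]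
  have hgood : ∀ T : Finset ι, len (gen ⊥ T a) ≤ ∑ i ∈ T, w (m i) →
      ∀ n ∈ T, (∏ i ∈ T, F (a i) (m i)) * (1 - o (a n)) = 0 := by
    intro T hT n hn
    have h1 := hps T (∏ i ∈ Tᶜ, F (a i) (m i))
    rw [prod_compl_mul_prod, hall, hpsK] at h1
    have h2 : (∏ i ∈ T, m i) ∣ Nat.card (gen ⊥ T a) :=
      Int.natCast_dvd_natCast.1 ⟨_, h1⟩
    have h3 : (∏ i ∈ T, m i) = Nat.card (gen ⊥ T a) := by
      by_contra hc
      have := om_lt Nat.card_pos.ne' h2 hc
      rw [hom] at this
      unfold len at hT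
      omega
    rw [himg T _ le_rfl h3.ge]
    exact hinv _ _ (mem_gen _ a hn)
  have hnz : ∀ T : Finset ι, ∏ i ∈ T, F (a i) (m i) ≠ 0 := by
    intro T hc
    have h1 := hps T 1
    rw [hc, mul_zero] at h1
    have h2 : ps (gen ⊥ T a) (0 : RG G) = 0 := by simp [ps]
    have h3 : ps (gen ⊥ T a) (1 : RG G) = 1 := by
      unfold ps
      rw [finsum_eq_single _ 1]
      · simp
      · intro g hg
        rw [MonoidAlgebra.one_def, MonoidAlgebra.coeff_single, Finsupp.single_apply, if_neg]
        exact fun e => hg (Subtype.ext e.symm)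
    rw [h2, h3, mul_one] at h1
    exact hprod0 T (by exact_mod_cast h1.symm)
  have main : ∀ N : ℕ, ∀ T : Finset ι, T.card ≤ N → T.Nonempty →
      ¬ ∀ n ∈ T, (∏ i ∈ T, F (a i) (m i)) * (1 - o (a n)) = 0 := by
    intro N
    induction N with
    | zero => intro T h hT; have := hT.card_pos; omega
    | succ N ih =>
    intro T hT ⟨n, hn⟩ hz
    have hz := hz n hn
    set a' := Function.update a n (a n ^ m n) with ha'
    set m' := Function.update m n 0 with hm'
    have hP : ∀ t : Finset ι, ∏ j ∈ t.erase n, F (a' j) (m' j) =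
        ∏ j ∈ t.erase n, F (a j) (m j) := fun t => prod_congr rfl fun j hj => by
      simp [ha', hm', Function.update_of_ne (ne_of_mem_erase hj)]
    have hFn : F (a' n) (m' n) = 1 - o (a n ^ m n) := by simp [ha', hm', F]
    have h0 : (1 : RG G) * ∏ j ∈ T, F (a' j) (m' j) = 0 := by
      rw [← mul_prod_erase T _ hn] at hz ⊢
      rw [hP, hFn, ← geo]
      have : F (a n) (m n) = ∑ j ∈ range (m n), o (a n ^ j) := by simp [F, hm n]
      rw [this] at hz
      linear_combination hz
    obtain ⟨I, hIT, hI0, hIne⟩ := exmin 1 T _ h0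
    have hnI : n ∈ I := by
      by_contra hc
      rw [← erase_eq_of_notMem hc, hP, one_mul] at hI0
      exact hnz _ hI0
    have hJ : (I.erase n).Nonempty := by
      by_contra hc
      rw [← mul_prod_erase I _ hnI, not_nonempty_iff_eq_empty.1 hc, hFn] at hI0
      simp only [prod_empty, mul_one] at hI0
      exact hcon n (by simpa using b1 (Sup.one ⊥) (by simpa using hnz ∅) hI0)
    have key := hl _ ⊥ 1 I a' m' (Nat.lt_succ_self _) ⟨n, hnI⟩ (Sup.one _) hI0 hIne
    have e1 : ∑ j ∈ I, w (m' j) = 1 + ∑ j ∈ I.erase n, w (m j) := by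
      rw [← add_sum_erase I _ hnI]
      congr 1
      · simp [hm', w]
      · exact sum_congr rfl fun j hj => by simp [hm', Function.update_of_ne (ne_of_mem_erase hj)]
    have e2 : len (⊥ : Subgroup G) = 0 := by simp [len]
    have e3 : len (gen ⊥ (I.erase n) a) ≤ len (gen ⊥ I a') :=
      len_mono (gen_le bot_le fun j hj => by
        have := mem_gen ⊥ a' (mem_of_mem_erase hj)
        simpa [ha', Function.update_of_ne (ne_of_mem_erase hj)] using this)
    refine ih (I.erase n) ?_ hJ (hgood _ (by omega))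
    have := card_erase_lt_of_mem hnI
    have := card_le_card hIT
    omega
  refine main _ univ le_rfl univ_nonempty fun n _ => ?_
  rw [hall]
  exact hinv _ _ trivial

end
end Pool.Agent.H.MP_78373f_an
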