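import Mathlib
import Pool.Agent.H.MP_78373f_an.A

set_option autoImplicit false

namespace Pool.Agent.H.MP_78373f_an
open Finset Filter Topology

noncomputable section

lemma exf (S : Finset ℝ) {δ : ℝ} (hδ : 0 < δ) :
    ∃ f : ℝ →ₗ[ℚ] ℚ, f 1 = 1 ∧ ∀ s ∈ S, |(f s : ℝ) - s| ≤ δ := by
  classical
  have hs : LinearIndepOn ℚ id ({1} : Set ℝ) := LinearIndepOn.singleton one_ne_zero
  set b := Module.Basis.extend hs with hb
  set C : ℝ := ∑ s ∈ S, ∑ x ∈ (b.repr s).support, |((b.repr s x : ℚ) : ℝ)| + 1 with hC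
  have hC0 : 0 < C := by positivity
  have hq : ∀ x : ℝ, ∃ q : ℚ, |(q : ℝ) - x| ≤ δ / C ∧ (x = 1 → q = 1) := by
    intro x
    by_cases h : x = 1
    · exact ⟨1, by simp [h]; positivity, fun _ => rfl⟩
    · obtain ⟨q, h1, h2⟩ := exists_rat_btwn (show x < x + δ / C by have := div_pos hδ hC0; linarith)
      exact ⟨q, abs_le.2 ⟨by have := div_pos hδ hC0; linarith, by linarith⟩, fun e => absurd e h⟩
  choose q hq1 hq2 using hq
  refine ⟨b.constr ℚ fun x => q (b x), ?_, fun s hsS => ?_⟩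
  · have h1 : (1 : ℝ) ∈ hs.extend (Set.subset_univ _) := hs.subset_extend _ rfl
    have e : b ⟨1, h1⟩ = 1 := Module.Basis.extend_apply_self hs _
    have := b.constr_basis ℚ (fun x => q (b x)) ⟨1, h1⟩
    rw [e] at this
    rw [this, hq2 1 rfl]
  · have e := b.linearCombination_repr s
    rw [Finsupp.linearCombination_apply, Finsupp.sum] at e
    rw [b.constr_apply, Finsupp.sum]
    have e2 : ((∑ x ∈ (b.repr s).support, (b.repr s) x • q (b x) : ℚ) : ℝ) - s =
        ∑ x ∈ (b.repr s).support, ((b.repr s x : ℚ) : ℝ) * ((q (b x) : ℝ) - b x) := by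
      conv_lhs => rw [← e]
      simp only [mul_sub, sum_sub_distrib, smul_eq_mul, Rat.cast_sum, Rat.cast_mul, Rat.smul_def]
      rw [show (∑ x ∈ (b.repr s).support, ((b.repr s x : ℚ) : ℝ) * b x) = s by
        simpa [Rat.smul_def] using e]
    rw [e2]
    refine (abs_sum_le_sum_abs _ _).trans ?_
    have h1 : ∑ x ∈ (b.repr s).support, |((b.repr s x : ℚ) : ℝ) * ((q (b x) : ℝ) - b x)| ≤
        (∑ x ∈ (b.repr s).support, |((b.repr s x : ℚ) : ℝ)|) * (δ / C) := by
      rw [sum_mul]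
      exact sum_le_sum fun x _ => by
        rw [abs_mul]; exact mul_le_mul_of_nonneg_left (hq1 _) (abs_nonneg _)
    have h2 : ∑ x ∈ (b.repr s).support, |((b.repr s x : ℚ) : ℝ)| ≤ C := by
      have := single_le_sum (f := fun s => ∑ x ∈ (b.repr s).support, |((b.repr s x : ℚ) : ℝ)|)
        (fun _ _ => by positivity) hsS
      linarith
    have h3 := mul_le_mul_of_nonneg_right h2 (div_pos hδ hC0).le
    rw [mul_div_cancel₀ _ hC0.ne'] at h3
    linarith

lemma col {I : Type} (β : I → Prop) (c : I → ℝ) (f : ℝ → ℝ)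
    (hf : ∀ (y : ℝ) (k : ℤ), f (y - k) = f y - k)
    (h : ∀ t, ∃! i, β i ∧ t - c i ∈ Set.Ico (0 : ℝ) 1) (t : ℝ) :
    ∃! i, β i ∧ f (t - c i) ∈ Set.Ico (0 : ℝ) 1 := by
  have hu : ∀ i j, β i → β j → c j ≤ c i → c i < c j + 1 → i = j := fun i j hi hj h1 h2 =>
    (h (c i)).unique ⟨hi, by simp⟩ ⟨hj, by constructor <;> linarith⟩
  have hs : ∀ i, β i → ∃ j, β j ∧ c j = c i + 1 := by
    intro i hi
    obtain ⟨j, ⟨hj, h1, h2⟩, -⟩ := h (c i + 1)
    refine ⟨j, hj, ?_⟩
    by_contra hc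
    have := hu j i hj hi (by linarith) (lt_of_le_of_ne (by linarith) hc)
    subst this
    linarith
  have hp : ∀ i, β i → ∃ j, β j ∧ c j = c i - 1 := by
    intro i hi
    obtain ⟨j, ⟨hj, h1, h2⟩, -⟩ := h (c i - 1 / 2)
    obtain ⟨k, hk, e⟩ := hs j hj
    have : k = i := (h (c i + 1 / 2)).unique ⟨hk, by constructor <;> linarith⟩
      ⟨hi, by constructor <;> linarith⟩
    subst this
    exact ⟨j, hj, by linarith⟩
  obtain ⟨i0, ⟨h0, -⟩, -⟩ := h 0
  have hz : ∀ k : ℤ, ∃ j, β j ∧ c j = c i0 + k := by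
    intro k
    induction k using Int.induction_on with
    | zero => exact ⟨i0, h0, by simp⟩
    | succ k ih =>
      obtain ⟨j, hj, e⟩ := ih
      obtain ⟨j', hj', e'⟩ := hs j hj
      exact ⟨j', hj', by push_cast at e ⊢; linarith⟩
    | pred k ih =>
      obtain ⟨j, hj, e⟩ := ih
      obtain ⟨j', hj', e'⟩ := hp j hj
      exact ⟨j', hj', by push_cast at e ⊢; linarith⟩
  have hall : ∀ i, β i → ∃ k : ℤ, c i = c i0 + k := by
    intro i hi
    obtain ⟨j, hj, e⟩ := hz ⌊c i - c i0⌋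
    have h1 := Int.floor_le (c i - c i0)
    have h2 := Int.lt_floor_add_one (c i - c i0)
    have := hu i j hi hj (by linarith) (by linarith)
    subst this
    exact ⟨_, e⟩
  obtain ⟨j, hj, e⟩ := hz ⌊f (t - c i0)⌋
  have key : ∀ i (k : ℤ), c i = c i0 + k → f (t - c i) = f (t - c i0) - k := fun i k e => by
    rw [← hf, e]; congr 1; ring
  refine ⟨j, ⟨hj, ?_⟩, fun i ⟨hi, h1, h2⟩ => ?_⟩
  · rw [key j _ e]
    have h1 := Int.floor_le (f (t - c i0))
    have h2 := Int.lt_floor_add_one (f (t - c i0))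
    constructor <;> linarith
  · obtain ⟨k, hk⟩ := hall i hi
    rw [key i k hk] at h1 h2
    have : ⌊f (t - c i0)⌋ = k := Int.floor_eq_iff.2 ⟨by linarith, by linarith⟩
    rw [this] at e
    exact hu i j hi hj (by linarith) (by linarith)

variable {ι : Type} [Fintype ι] [DecidableEq ι]

lemma repl (L : AddSubgroup (ι → ℝ)) (f : ℝ → ℝ) (hf : ∀ (y : ℝ) (k : ℤ), f (y - k) = f y - k)
    (h : ∀ x : ι → ℝ, ∃! v : L, ∀ i, x i - v.1 i ∈ Set.Ico (0 : ℝ) 1) (x : ι → ℝ) :
    ∃! v : L, ∀ i, f (x i - v.1 i) ∈ Set.Ico (0 : ℝ) 1 := by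
  have main : ∀ S : Finset ι, ∀ x : ι → ℝ, ∃! v : L, ∀ i,
      (if i ∈ S then f (x i - v.1 i) else x i - v.1 i) ∈ Set.Ico (0 : ℝ) 1 := by
    intro S
    induction S using Finset.induction_on with
    | empty => simpa using h
    | insert j S hj ih =>
      intro x
      have := col (fun v : L => ∀ i, i ≠ j →
        (if i ∈ S then f (x i - v.1 i) else x i - v.1 i) ∈ Set.Ico (0 : ℝ) 1) (fun v => v.1 j) f hf
        (fun t => by
          refine (existsUnique_congr fun v => ?_).1 (ih (Function.update x j t))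
          constructor
          · intro H
            refine ⟨fun i hi => ?_, ?_⟩
            · simpa [Function.update_of_ne hi] using H i
            · simpa [hj] using H j
          · rintro ⟨H1, H2⟩ i
            by_cases e : i = j
            · subst e; simpa [hj] using H2
            · simpa [Function.update_of_ne e] using H1 i e) (x j)
      refine (existsUnique_congr fun v => ?_).1 this
      constructor
      · rintro ⟨H1, H2⟩ i
        by_cases e : i = j
        · subst e; simpa using H2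
        · simpa [e] using H1 i e
      · intro H
        refine ⟨fun i hi => ?_, ?_⟩
        · simpa [hi] using H i
        · simpa using H j
  simpa using main univ x

omit [DecidableEq ι] in
lemma fin_ball (L : AddSubgroup (ι → ℝ)) (hp : ∀ v ∈ L, v ≠ 0 → 1 ≤ ‖v‖) (R : ℝ) :
    {v | v ∈ L ∧ ‖v‖ ≤ R}.Finite := by
  classical
  refine Set.Finite.of_finite_image (f := fun v i => ⌊v i⌋)
    ((Set.finite_Icc (fun _ => ⌊-R⌋) (fun _ => ⌊R⌋)).subset ?_) ?_
  · rintro _ ⟨v, ⟨-, hv⟩, rfl⟩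
    have := fun i => abs_le.1 ((norm_le_pi_norm v i).trans hv)
    exact ⟨fun i => Int.floor_le_floor (this i).1, fun i => Int.floor_le_floor (this i).2⟩
  · rintro v ⟨hv, -⟩ u ⟨hu, -⟩ e
    by_contra hc
    have h1 := hp _ (L.sub_mem hv hu) (sub_ne_zero.2 hc)
    have h2 : ‖v - u‖ < 1 := (pi_norm_lt_iff one_pos).2 fun i =>
      Int.abs_sub_lt_one_of_floor_eq_floor (congrFun e i)
    linarith

omit [DecidableEq ι] in
lemma half (L : AddSubgroup (ι → ℝ)) (hp : ∀ v ∈ L, v ≠ 0 → 1 ≤ ‖v‖)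
    (hc : ∀ x, ∃ v ∈ L, ‖x - v‖ ≤ 1 / 2) (x : ι → ℝ) :
    ∃! v : L, ∀ i, x i - v.1 i ∈ Set.Ico (0 : ℝ) 1 := by
  have hf := fin_ball L hp (‖x‖ + 1)
  have ev : ∀ᶠ t in 𝓝[>] (0 : ℝ), (0 < t ∧ t < 1) ∧ ∀ v ∈ {v | v ∈ L ∧ ‖v‖ ≤ ‖x‖ + 1}, ∀ i,
      v i - x i ≤ t → v i - x i ≤ 0 := by
    refine (Filter.Eventually.and self_mem_nhdsWithin
      (mem_nhdsWithin_of_mem_nhds (Iio_mem_nhds one_pos))).and ?_
    rw [eventually_all_finite hf]
    intro v _
    rw [eventually_all]
    intro i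
    by_cases h : v i - x i ≤ 0
    · exact Eventually.of_forall fun _ _ => h
    · filter_upwards [mem_nhdsWithin_of_mem_nhds (Iio_mem_nhds (not_le.1 h))] with t ht h'
      exact absurd h' (not_le.2 ht)
  obtain ⟨t, ⟨t0, t1⟩, ht⟩ := ev.exists
  obtain ⟨v, hv, hn⟩ := hc (fun i => x i + t - 1 / 2)
  have hi := fun i => abs_le.1 ((norm_le_pi_norm _ i).trans hn)
  simp only [Pi.sub_apply] at hi
  have hv' : ‖v‖ ≤ ‖x‖ + 1 := (pi_norm_le_iff_of_nonneg (by positivity)).2 fun i => by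
    have := abs_le.1 (norm_le_pi_norm x i)
    have := hi i
    exact abs_le.2 ⟨by linarith, by linarith⟩
  refine ⟨⟨v, hv⟩, fun i => ?_, fun u hu => ?_⟩
  · have h1 := hi i
    have := ht v ⟨hv, hv'⟩ i (by linarith)
    constructor <;> linarith
  · by_contra hne
    have h1 := hp _ (L.sub_mem u.2 hv) (sub_ne_zero.2 fun e => hne (Subtype.ext e))
    have h2 : ‖u.1 - v‖ < 1 := (pi_norm_lt_iff one_pos).2 fun i => by
      have h1 := hi i
      have := ht v ⟨hv, hv'⟩ i (by linarith)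
      obtain ⟨a1, a2⟩ := hu i
      exact abs_lt.2 ⟨by simp only [Pi.sub_apply]; linarith, by simp only [Pi.sub_apply]; linarith⟩
    linarith

theorem mink [Nonempty ι] (L : AddSubgroup (ι → ℝ)) (hp : ∀ v ∈ L, v ≠ 0 → 1 ≤ ‖v‖)
    (hc : ∀ x, ∃ v ∈ L, ‖x - v‖ ≤ 1 / 2) : ∃ i, Pi.single i (1 : ℝ) ∈ L := by
  classical
  by_contra hcon
  push Not at hcon
  have hf := fin_ball L hp 2
  have ev : ∀ᶠ δ in 𝓝[>] (0 : ℝ), (0 < δ ∧ δ < 1 / 4) ∧ ∀ v ∈ {v | v ∈ L ∧ ‖v‖ ≤ 2}, ∀ i,
      δ < ‖Pi.single i (1 : ℝ) - v‖ := by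
    refine (Filter.Eventually.and self_mem_nhdsWithin
      (mem_nhdsWithin_of_mem_nhds (Iio_mem_nhds (by norm_num)))).and ?_
    rw [eventually_all_finite hf]
    intro v hv
    rw [eventually_all]
    intro i
    exact mem_nhdsWithin_of_mem_nhds (Iio_mem_nhds (norm_pos_iff.2 (sub_ne_zero.2
      fun e => hcon i (e ▸ hv.1))))
  obtain ⟨δ, ⟨d0, d1⟩, hδ⟩ := ev.exists
  set S : Finset ℝ := (hf.toFinset ×ˢ (univ : Finset ι)).image fun p => p.1 p.2 with hS
  obtain ⟨f, f1, fS⟩ := exf S d0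
  have hmem : ∀ v ∈ L, ‖v‖ ≤ 2 → ∀ i, v i ∈ S := fun v hv h2 i =>
    mem_image.2 ⟨(v, i), by simp [hv, h2], rfl⟩
  set M : ℕ := ∏ s ∈ S, (f s).den with hM
  have hM0 : M ≠ 0 := prod_ne_zero_iff.2 fun s _ => (f s).den_nz
  have hMr : (0 : ℝ) < M := by exact_mod_cast Nat.pos_of_ne_zero hM0
  have hMs : ∀ s ∈ S, ∃ z : ℤ, (z : ℚ) = M * f s := by
    intro s hs
    obtain ⟨c, hc⟩ := dvd_prod_of_mem (fun s => (f s).den) hs
    refine ⟨c * (f s).num, ?_⟩
    rw [hM, hc]; push_cast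
    rw [← Rat.mul_den_eq_num]; ring
  have walk : ∀ N : ℕ, ∀ v ∈ L, ‖v‖ ≤ N + 1 → ∀ i, |(f (v i) : ℝ) - v i| ≤ δ * (N + 1) ∧
      ∃ z : ℤ, (z : ℚ) = M * f (v i) := by
    intro N
    induction N with
    | zero =>
      intro v hv h i
      have := hmem v hv (by simp at h; linarith) i
      exact ⟨by simpa using fS _ this, hMs _ this⟩
    | succ N ih =>
      intro v hv h i
      have hN : (0 : ℝ) < N + 2 := by positivity
      obtain ⟨u, hu, hn⟩ := hc ((3 / 2 / (N + 2) : ℝ) • v)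
      have h' : ‖v‖ / (N + 2) ≤ 1 := (div_le_one hN).2 (by push_cast at h; linarith)
      have e1 : ‖(3 / 2 / (N + 2) : ℝ) • v‖ ≤ 3 / 2 := by
        rw [norm_smul, Real.norm_of_nonneg (by positivity)]
        calc 3 / 2 / (N + 2) * ‖v‖ = 3 / 2 * (‖v‖ / (N + 2)) := by ring
          _ ≤ _ := by linarith
      have e2 : ‖v - (3 / 2 / (N + 2) : ℝ) • v‖ ≤ N + 1 / 2 := by
        have : v - (3 / 2 / (N + 2) : ℝ) • v = ((N + 1 / 2) / (N + 2) : ℝ) • v := by
          rw [show ((N + 1 / 2) / (N + 2) : ℝ) = 1 - 3 / 2 / (N + 2) by field_simp; ring,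
            sub_smul, one_smul]
        rw [this, norm_smul, Real.norm_of_nonneg (by positivity)]
        calc (N + 1 / 2) / (N + 2) * ‖v‖ = (N + 1 / 2) * (‖v‖ / (N + 2)) := by ring
          _ ≤ (N + 1 / 2) * 1 := by gcongr
          _ = _ := by ring
      have e3 : ‖u‖ ≤ 2 := by
        have := norm_sub_norm_le u ((3 / 2 / (N + 2) : ℝ) • v)
        rw [norm_sub_rev] at this
        linarith
      have e4 : ‖v - u‖ ≤ N + 1 := by
        have := norm_add_le (v - (3 / 2 / (N + 2) : ℝ) • v) ((3 / 2 / (N + 2) : ℝ) • v - u)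
        rw [sub_add_sub_cancel] at this
        linarith
      obtain ⟨a1, z1, hz1⟩ := ih _ (L.sub_mem hv hu) e4 i
      have a2 := fS _ (hmem u hu e3 i)
      obtain ⟨z2, hz2⟩ := hMs _ (hmem u hu e3 i)
      simp only [Pi.sub_apply, map_sub, Rat.cast_sub] at a1 hz1
      refine ⟨?_, z1 + z2, by push_cast; rw [hz1, hz2]; ring⟩
      have := abs_le.1 a1
      have := abs_le.1 a2
      push_cast
      exact abs_le.2 ⟨by linarith, by linarith⟩
  have walk' : ∀ v ∈ L, ∀ i, |(f (v i) : ℝ) - v i| ≤ δ * (‖v‖ + 1) ∧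
      ∃ z : ℤ, (z : ℚ) = M * f (v i) := by
    intro v hv i
    obtain ⟨h1, h2⟩ := walk ⌊‖v‖⌋₊ v hv (Nat.lt_floor_add_one _).le i
    refine ⟨h1.trans ?_, h2⟩
    have := Nat.floor_le (norm_nonneg v)
    gcongr
  have fq : ∀ q : ℚ, f (q : ℝ) = q := fun q => by
    have := f.map_smul q 1
    simpa [f1, Rat.smul_def] using this
  have tile := repl L (fun y => (f y : ℝ)) (fun y k => by
    have := fq k
    simp only [Rat.cast_intCast] at this
    simp [this]) (half L hp hc)
  let K : AddSubgroup (ι → ℤ) :=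
    { carrier := {z | ∃ v ∈ L, ∀ i, (z i : ℚ) = M * f (v i)}
      add_mem' := by
        rintro a b ⟨u, hu, ha⟩ ⟨v, hv, hb⟩
        exact ⟨u + v, L.add_mem hu hv, fun i => by simp [ha, hb, mul_add]⟩
      zero_mem' := ⟨0, L.zero_mem, fun i => by simp⟩
      neg_mem' := by
        rintro a ⟨u, hu, ha⟩
        exact ⟨-u, L.neg_mem hu, fun i => by simp [ha]⟩ }
  let a : ι → Multiplicative ((ι → ℤ) ⧸ K) := fun i =>
    Multiplicative.ofAdd (QuotientAddGroup.mk' K (Pi.single i 1))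
  have hprod : ∀ e : ι → ℕ, ∏ i, a i ^ e i =
      Multiplicative.ofAdd (QuotientAddGroup.mk' K fun i => (e i : ℤ)) := by
    intro e
    simp only [a, ← ofAdd_nsmul, ← ofAdd_sum, ← map_nsmul, ← map_sum]
    congr 2
    ext j
    simp [Pi.single_apply]
  have hMq : (0 : ℚ) < M := by exact_mod_cast Nat.pos_of_ne_zero hM0
  have hsur : ∀ g, ∃ e ∈ Fintype.piFinset fun _ : ι => range M, ∏ i, a i ^ e i = g := by
    intro g
    obtain ⟨z, hz⟩ := QuotientAddGroup.mk'_surjective K (Multiplicative.toAdd g)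
    obtain ⟨v, hv, -⟩ := tile fun i => ((z i / M : ℚ) : ℝ)
    choose y hy using fun i => (walk' v.1 v.2 i).2
    have hb : ∀ i, 0 ≤ z i - y i ∧ z i - y i < M := by
      intro i
      obtain ⟨h1, h2⟩ := hv i
      simp only [map_sub, fq] at h1 h2
      have h1' : (0 : ℚ) ≤ z i / M - f (v.1 i) := by exact_mod_cast h1
      have h2' : z i / M - f (v.1 i) < (1 : ℚ) := by exact_mod_cast h2
      have e : ((z i - y i : ℤ) : ℚ) = M * (z i / M - f (v.1 i)) := by
        push_cast; rw [hy]; field_simp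
      constructor
      · have : (0 : ℚ) ≤ ((z i - y i : ℤ) : ℚ) := by rw [e]; positivity
        exact_mod_cast this
      · have : ((z i - y i : ℤ) : ℚ) < M := by rw [e]; nlinarith
        exact_mod_cast this
    refine ⟨fun i => (z i - y i).toNat, Fintype.mem_piFinset.2 fun i => ?_, ?_⟩
    · have := hb i
      rw [mem_range]; omega
    · rw [hprod, ← ofAdd_toAdd g, ← hz]
      congr 1
      rw [QuotientAddGroup.mk'_apply, QuotientAddGroup.mk'_apply, QuotientAddGroup.eq]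
      refine ⟨v.1, v.2, fun i => ?_⟩
      have := hb i
      rw [← hy]
      simp only [Pi.add_apply, Pi.neg_apply]
      rw [Int.toNat_of_nonneg this.1]
      congr 1; ring
  have : Finite (Multiplicative ((ι → ℤ) ⧸ K)) := by
    refine Set.finite_univ_iff.1 (((Fintype.piFinset fun _ : ι => range M).finite_toSet.image
      fun e => ∏ i, a i ^ e i).subset fun g _ => ?_)
    obtain ⟨e, he, rfl⟩ := hsur g
    exact ⟨e, he, rfl⟩
  obtain ⟨i, hi⟩ := hajos a (fun _ => M) (fun _ => hM0) (by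
    intro e he e' he' h
    simp only [hprod] at h
    have h := Multiplicative.ofAdd.injective h
    rw [QuotientAddGroup.mk'_apply, QuotientAddGroup.mk'_apply, QuotientAddGroup.eq] at h
    obtain ⟨v, hv, h⟩ := h
    simp only [Pi.add_apply, Pi.neg_apply] at h
    have hI : ∀ e : ι → ℕ, e ∈ Fintype.piFinset (fun _ : ι => range M) → ∀ i,
        (((e i : ℚ) / M : ℚ) : ℝ) ∈ Set.Ico (0 : ℝ) 1 := by
      intro e he i
      have := mem_range.1 (Fintype.mem_piFinset.1 he i)
      push_cast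
      exact ⟨by positivity, (div_lt_one hMr).2 (by exact_mod_cast this)⟩
    have := (tile fun i => (((e' i : ℚ) / M : ℚ) : ℝ)).unique (y₁ := ⟨v, hv⟩) (y₂ := 0)
      (fun i => by
        have e1 : f ((((e' i : ℚ) / M : ℚ) : ℝ) - v i) = (e i : ℚ) / M := by
          rw [map_sub, fq]
          have := h i
          push_cast at this
          field_simp
          linarith
        simp only [e1]
        exact hI e he i)
      (fun i => by
        simp only [ZeroMemClass.coe_zero, Pi.zero_apply, sub_zero, fq]; exact hI e' he' i)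
    have hv0 : v = 0 := congrArg Subtype.val this
    ext i
    have := h i
    simp only [hv0, Pi.zero_apply, map_zero, mul_zero] at this
    have : -(e i : ℤ) + e' i = 0 := by exact_mod_cast this
    omega) hsur
  simp only [a, ← ofAdd_nsmul, ← map_nsmul] at hi
  have hi : QuotientAddGroup.mk' K (M • Pi.single i 1) = 0 := hi
  rw [QuotientAddGroup.mk'_apply, QuotientAddGroup.eq_zero_iff] at hi
  obtain ⟨v, hv, h⟩ := hi
  have hfv : ∀ j, (f (v j) : ℝ) = Pi.single (M := fun _ => ℝ) i 1 j := by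
    intro j
    have := h j
    by_cases e : j = i
    · subst e
      simp at this
      have : f (v j) = 1 := by
        apply mul_left_cancel₀ hMq.ne'; rw [mul_one]; exact this.symm
      simp [this]
    · simp [Pi.single_eq_of_ne e, hM0] at this
      simp [Pi.single_eq_of_ne e, this]
  have b1 : ‖Pi.single i (1 : ℝ) - v‖ ≤ δ * (‖v‖ + 1) :=
    (pi_norm_le_iff_of_nonneg (by positivity)).2 fun j => by
      have := (walk' v hv j).1
      rw [hfv] at this
      exact this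
  have b2 : ‖v‖ ≤ 2 := by
    have := norm_sub_norm_le v (Pi.single i (1 : ℝ))
    rw [norm_sub_rev, Pi.norm_single, norm_one] at this
    nlinarith [norm_nonneg v]
  have b3 : ‖Pi.single i (1 : ℝ) - v‖ ≤ δ :=
    (pi_norm_le_iff_of_nonneg d0.le).2 fun j => by
      have := fS _ (hmem v hv b2 j)
      rw [hfv] at this
      exact this
  have := hδ v ⟨hv, b2⟩ i
  linarith

end
end Pool.Agent.H.MP_78373f_an
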