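import Mathlib

set_option autoImplicit false

namespace Pool.Agent.H.MP_78373f_an

def T : Fin 6 → List (Fin 4 → ZMod 4) := ![
  [![0, 1, 0, 3], ![0, 1, 2, 0], ![0, 2, 0, 1], ![0, 3, 1, 3], ![0, 3, 2, 1], ![1, 3, 3, 3], ![2, 0, 1, 3], ![2, 0, 2, 1], ![2, 1, 3, 3], ![2, 2, 1, 2], ![2, 2, 3, 1], ![3, 0, 0, 1]],
  [![0, 2, 1, 0], ![1, 0, 0, 3], ![1, 0, 2, 0], ![1, 2, 0, 2], ![1, 2, 3, 0], ![1, 3, 2, 2], ![2, 1, 2, 2], ![3, 0, 1, 0], ![3, 1, 0, 2], ![3, 1, 3, 0], ![3, 3, 1, 2], ![3, 3, 3, 1]],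
  [![0, 1, 2, 2], ![1, 0, 0, 1], ![2, 2, 1, 0], ![3, 3, 3, 3]],
  [![0, 1, 0, 0], ![0, 1, 2, 1], ![0, 2, 0, 2], ![0, 3, 1, 0], ![0, 3, 2, 2], ![1, 3, 3, 0], ![2, 0, 1, 0], ![2, 0, 2, 2], ![2, 1, 3, 0], ![2, 2, 1, 3], ![2, 2, 3, 2], ![3, 0, 0, 2]],
  [![0, 2, 1, 1], ![1, 0, 0, 0], ![1, 0, 2, 1], ![1, 2, 0, 3], ![1, 2, 3, 1], ![1, 3, 2, 3], ![2, 1, 2, 3], ![3, 0, 1, 1], ![3, 1, 0, 3], ![3, 1, 3, 1], ![3, 3, 1, 3], ![3, 3, 3, 2]],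
  [![0, 1, 2, 3], ![1, 0, 0, 2], ![2, 2, 1, 1], ![3, 3, 3, 0]]]

def W : List (Fin 3 → Fin 6) := [![1, 5, 4], ![2, 5, 3], ![3, 2, 5], ![4, 1, 5], ![4, 3, 3], ![5, 3, 0], ![5, 4, 2], ![5, 5, 5]]

def opp (s t : Fin 6) : Prop := (s, t) ∈ [((0 : Fin 6), (2 : Fin 6)), (1, 2), (3, 5), (4, 5),
  (2, 0), (2, 1), (5, 3), (5, 4)]

instance (s t : Fin 6) : Decidable (opp s t) := by unfold opp; infer_instance

lemma t1 : ∀ s t, opp s t → ∀ u ∈ T s, ∀ v ∈ T t, ∃ i, u i - v i = 2 := by decide +kernel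

lemma t2 : ∀ s t, s ≠ t → ∀ u ∈ T s, ∀ v ∈ T t, ∃ i, u i ≠ v i := by decide +kernel

lemma t3 : ∀ s, ∀ u ∈ T s, ∀ v ∈ T s, (∀ i, u i = v i) ∨
    ∃ i j, i ≠ j ∧ u i - v i = 2 ∧ u j ≠ v j := by decide +kernel

lemma w1 : ∀ a ∈ W, ∀ b ∈ W, (∀ i, a i = b i) ∨ ∃ i j, i ≠ j ∧ opp (a i) (b i) ∧ a j ≠ b j := by
  decide +kernel

def cov (s : Fin 6) (z : Fin 4 → ZMod 4) : Prop := ∃ u ∈ T s, ∀ i, u i = z i ∨ u i = z i + 1

instance (s : Fin 6) (z : Fin 4 → ZMod 4) : Decidable (cov s z) := by unfold cov; infer_instance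

lemma t4 : ∀ a b c d : ZMod 4, ((cov 0 ![a, b, c, d] ∧ cov 1 ![a, b, c, d]) ∨ cov 2 ![a, b, c, d]) ∧
    ((cov 3 ![a, b, c, d] ∧ cov 4 ![a, b, c, d]) ∨ cov 5 ![a, b, c, d]) := by decide +kernel

def ok (x : Bool × Bool) : Fin 6 → Bool := ![x.1, x.1, !x.1, x.2, x.2, !x.2]

lemma w3 : ∀ x y z : Bool × Bool, ∃ a ∈ W, ∀ b, ok (![x, y, z] b) (a b) = true := by
  decide +kernel

lemma w2 (c : Fin 3 → Fin 6 → Prop)
    (h : ∀ b, ((c b 0 ∧ c b 1) ∨ c b 2) ∧ ((c b 3 ∧ c b 4) ∨ c b 5)) :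
    ∃ a ∈ W, ∀ b, c b (a b) := by
  have : ∀ b, ∃ x : Bool × Bool, ∀ s, ok x s = true → c b s := by
    intro b
    obtain ⟨h1 | h1, h2 | h2⟩ := h b
    · exact ⟨(true, true), fun s => by fin_cases s <;> simp [ok, h1, h2]⟩
    · exact ⟨(true, false), fun s => by fin_cases s <;> simp [ok, h1, h2]⟩
    · exact ⟨(false, true), fun s => by fin_cases s <;> simp [ok, h1, h2]⟩
    · exact ⟨(false, false), fun s => by fin_cases s <;> simp [ok, h1, h2]⟩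
  choose x hx using this
  obtain ⟨a, ha, h⟩ := w3 (x 0) (x 1) (x 2)
  refine ⟨a, ha, fun b => hx b _ ?_⟩
  have := h b
  fin_cases b <;> exact this

abbrev J := Fin 3 × Fin 4

def KP : Set (J → ℤ) := {p | ∃ a ∈ W, ∀ b, ∃ u ∈ T (a b), ∀ i, (p (b, i) : ZMod 4) = u i}

lemma z2 {x y : ℤ} (h : (x : ZMod 4) - y = 2) : 2 ≤ |x - y| := by
  have : ((x - y - 2 : ℤ) : ZMod 4) = 0 := by push_cast; rw [h]; simp
  have := (ZMod.intCast_zmod_eq_zero_iff_dvd _ 4).1 this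
  rw [le_abs]; omega

lemma z1 {x y : ℤ} (h : (x : ZMod 4) ≠ y) : 1 ≤ |x - y| :=
  Int.one_le_abs (sub_ne_zero.2 fun e => h (by rw [e]))

lemma kp_sep {p q : J → ℤ} (hp : p ∈ KP) (hq : q ∈ KP) (hne : p ≠ q) :
    (∃ i, 4 ≤ |p i - q i|) ∨ ∃ i j, i ≠ j ∧ 2 ≤ |p i - q i| ∧ 1 ≤ |p j - q j| := by
  obtain ⟨a, ha, hp⟩ := hp
  obtain ⟨b, hb, hq⟩ := hq
  choose u hu hpu using hp
  choose v hv hqv using hq
  rcases w1 a ha b hb with h | ⟨i, j, hij, h1, h2⟩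
  · by_cases hall : ∀ k i, u k i = v k i
    · left
      obtain ⟨⟨k, i⟩, hi⟩ := Function.ne_iff.1 hne
      refine ⟨(k, i), ?_⟩
      have : ((p (k, i) - q (k, i) : ℤ) : ZMod 4) = 0 := by
        push_cast; rw [hpu, hqv, hall, sub_self]
      have := (ZMod.intCast_zmod_eq_zero_iff_dvd _ 4).1 this
      rw [le_abs]; omega
    · right
      obtain ⟨k, hk⟩ := not_forall.1 hall
      obtain ⟨i, j, hij, h1, h2⟩ := (t3 (a k) _ (hu k) _ (h k ▸ hv k)).resolve_left hk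
      exact ⟨(k, i), (k, j), by simpa using hij, z2 (by rw [hpu, hqv, h1]),
        z1 (by rw [hpu, hqv]; exact h2)⟩
  · right
    obtain ⟨k, hk⟩ := t1 _ _ h1 _ (hu i) _ (hv i)
    obtain ⟨l, hl⟩ := t2 _ _ h2 _ (hu j) _ (hv j)
    exact ⟨(i, k), (j, l), by simp [hij], z2 (by rw [hpu, hqv, hk]),
      z1 (by rw [hpu, hqv]; exact hl)⟩

lemma kp_cov (z : J → ℤ) : ∃ p ∈ KP, ∀ i, p i = z i ∨ p i = z i + 1 := by
  obtain ⟨a, ha, h⟩ := w2 (fun b s => cov s fun i => (z (b, i) : ZMod 4)) fun b => by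
    have := t4 (z (b, 0)) (z (b, 1)) (z (b, 2)) (z (b, 3))
    rwa [show ![(z (b, 0) : ZMod 4), z (b, 1), z (b, 2), z (b, 3)] =
      fun i => (z (b, i) : ZMod 4) by ext i; fin_cases i <;> rfl] at this
  choose u hu h using h
  refine ⟨fun i => if u i.1 i.2 = z i then z i else z i + 1, ⟨a, ha, fun b => ⟨u b, hu b,
    fun i => ?_⟩⟩, fun i => ?_⟩
  · by_cases e : u b i = z (b, i)
    · simp [e]
    · simp only [e, if_false]; simp [(h b i).resolve_left e]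
  · by_cases e : u i.1 i.2 = z i <;> simp [e]

end Pool.Agent.H.MP_78373f_an
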