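import Mathlib
import Pool.Agent.H.MP_78373f_an.B

set_option autoImplicit false

namespace Pool.Agent.H.MP_78373f_an
open Finset Filter Topology

variable {ι : Type} [Fintype ι] [DecidableEq ι] [Nontrivial ι]

theorem core : ∃ ε : ℝ, 0 < ε ∧ ε < 1 ∧ ∀ L : AddSubgroup (ι → ℝ),
    (∀ v ∈ L, v ≠ 0 → ∃ i j, i ≠ j ∧ 2 * (1 + ε) ≤ |v i| + ε * |v j|) →
    ¬ ∀ x : ι → ℝ, ∃ v ∈ L, ∀ i j, i ≠ j →
      |x i - v i| + ε * |x j - v j| ≤ (1 + ε) * (1 + ε / 2) := by
  by_contra hcon
  push Not at hcon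
  set e : ℕ → ℝ := fun k => 1 / ((k : ℝ) + 1) / 10 with he
  have e0 : ∀ k, 0 < e k := fun k => by positivity
  have e1 : ∀ k, e k ≤ 1 / 10 := fun k => by
    have : 1 / ((k : ℝ) + 1) ≤ 1 := by
      rw [div_le_one (by positivity)]; linarith [Nat.cast_nonneg (α := ℝ) k]
    simp only [he]; linarith
  choose L hs hc using fun k => hcon (e k) (e0 k) (by linarith [e1 k])
  set U : Ultrafilter ℕ := hyperfilter ℕ with hU
  have hUle : (U : Filter ℕ) ≤ atTop := Nat.hyperfilter_le_atTop
  have elim : Tendsto e U (𝓝 0) := by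
    have := (tendsto_one_div_add_atTop_nhds_zero_nat (𝕜 := ℝ)).div_const 10
    rw [zero_div] at this
    exact this.mono_left hUle
  have hS : ∀ (s : ℕ → ι → ℝ) (w : ι → ℝ), (∀ k, s k ∈ L k) → Tendsto s U (𝓝 w) → ‖w‖ < 2 →
      ∀ᶠ k in U, s k = 0 := by
    intro s w h1 h2 h3
    filter_upwards [h2.norm.eventually (Iio_mem_nhds h3)] with k hk
    by_contra hne
    obtain ⟨i, j, -, h⟩ := hs k _ (h1 k) hne
    have a1 : |s k i| ≤ ‖s k‖ := norm_le_pi_norm (s k) i
    have a2 : |s k j| ≤ ‖s k‖ := norm_le_pi_norm (s k) j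
    have hk : ‖s k‖ < 2 := hk
    nlinarith [e0 k]
  have hC : ∀ (x : ℕ → ι → ℝ) (w : ι → ℝ), Tendsto x U (𝓝 w) → ∃ (p : ℕ → ι → ℝ) (q : ι → ℝ),
      (∀ k, p k ∈ L k) ∧ Tendsto p U (𝓝 q) ∧ ‖w - q‖ ≤ 1 ∧ ∀ k i j, i ≠ j →
        |x k i - p k i| + e k * |x k j - p k j| ≤ (1 + e k) * (1 + e k / 2) := by
    intro x w hx
    choose p hp h using fun k => hc k (x k)
    have hb : ∀ k, ‖x k - p k‖ ≤ (1 + e k) * (1 + e k / 2) := fun k =>
      (pi_norm_le_iff_of_nonneg (by have := e0 k; positivity)).2 fun i => by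
        obtain ⟨j, hj⟩ := exists_ne i
        have := h k i j hj.symm
        have h2 : 0 ≤ e k * |x k j - p k j| := by have := e0 k; positivity
        simp only [Pi.sub_apply, Real.norm_eq_abs]; linarith
    obtain ⟨y, -, hy⟩ := (isCompact_closedBall (0 : ι → ℝ) 2).ultrafilter_le_nhds
      (U.map fun k => x k - p k) (by
        rw [le_principal_iff]
        refine mem_map.2 (Eventually.of_forall fun k => ?_)
        have := hb k
        have h1 := e1 k
        have h0 := e0 k
        simp only [Set.mem_preimage, mem_closedBall_zero_iff]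
        nlinarith)
    have hy : Tendsto (fun k => x k - p k) U (𝓝 y) := hy
    refine ⟨p, w - y, hp, by simpa using hx.sub hy, ?_, h⟩
    have l2 : Tendsto (fun k => (1 + e k) * (1 + e k / 2)) U (𝓝 ((1 + 0) * (1 + 0 / 2))) :=
      (elim.const_add 1).mul ((elim.div_const 2).const_add 1)
    simpa using le_of_tendsto_of_tendsto' hy.norm l2 hb
  let L0 : AddSubgroup (ι → ℝ) :=
    { carrier := {v | ∃ s : ℕ → ι → ℝ, (∀ k, s k ∈ L k) ∧ Tendsto s U (𝓝 ((2 : ℝ) • v))}
      add_mem' := by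
        rintro a b ⟨s, h1, h2⟩ ⟨t, h3, h4⟩
        exact ⟨fun k => s k + t k, fun k => (L k).add_mem (h1 k) (h3 k), by
          simpa [smul_add] using h2.add h4⟩
      zero_mem' := ⟨fun _ => 0, fun k => (L k).zero_mem, by simp⟩
      neg_mem' := by
        rintro a ⟨s, h1, h2⟩
        exact ⟨fun k => -s k, fun k => (L k).neg_mem (h1 k), by simpa using h2.neg⟩ }
  have hz : ∀ (s : ℕ → ι → ℝ) (w : ι → ℝ), (∀ k, s k ∈ L k) → Tendsto s U (𝓝 w) → ‖w‖ < 2 →
      w = 0 := fun s w h1 h2 h3 =>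
    tendsto_nhds_unique h2 (tendsto_const_nhds.congr' (EventuallyEq.symm (hS s w h1 h2 h3)))
  obtain ⟨i, v, hv, hvl⟩ := mink L0 (by
      rintro v ⟨s, h1, h2⟩ hne
      by_contra hlt
      have := hz s _ h1 h2 (by rw [norm_smul]; simp; linarith)
      simp [hne] at this) (by
      intro x
      obtain ⟨p, q, h1, h2, h3, -⟩ := hC (fun _ => (2 : ℝ) • x) _ tendsto_const_nhds
      refine ⟨(1 / 2 : ℝ) • q, ⟨p, h1, by simpa [smul_smul] using h2⟩, ?_⟩
      have : x - (1 / 2 : ℝ) • q = (1 / 2 : ℝ) • ((2 : ℝ) • x - q) := by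
        simp [smul_sub, smul_smul]
      rw [this, norm_smul]; simp; linarith)
  obtain ⟨j, hj⟩ := exists_ne i
  set t : ι → ℝ := Pi.single j (3 / 4) with ht
  obtain ⟨p, q, hp, hq, hn, hb⟩ := hC (fun k => (1 / 2 : ℝ) • v k + t)
    (Pi.single i 1 + t) (by
      have := (hvl.const_smul (1 / 2 : ℝ)).add_const t
      simpa [smul_smul] using this)
  have hco := fun l => abs_le.1 ((norm_le_pi_norm _ l).trans hn)
  have hoth : ∀ l, l ≠ i → |q l| < 2 := by
    intro l hl
    have := hco l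
    simp only [Pi.sub_apply, Pi.add_apply, Pi.single_eq_of_ne hl, ht] at this
    by_cases e : l = j
    · subst e; simp only [Pi.single_eq_same] at this; rw [abs_lt]; constructor <;> linarith
    · simp only [Pi.single_eq_of_ne e] at this; rw [abs_lt]; constructor <;> linarith
  have hqi := hco i
  simp only [Pi.sub_apply, Pi.add_apply, Pi.single_eq_same, ht, Pi.single_eq_of_ne hj.symm] at hqi
  have hev : ∀ᶠ k in U, p k = 0 ∨ p k = v k := by
    by_cases h : q i ≤ 1
    · refine (hS p q hp hq ((pi_norm_lt_iff two_pos).2 fun l => ?_)).mono fun k hk => Or.inl hk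
      by_cases e : l = i
      · subst e; rw [Real.norm_eq_abs, abs_lt]; constructor <;> linarith
      · exact hoth l e
    · refine (hS (fun k => p k - v k) _ (fun k => (L k).sub_mem (hp k) (hv k)) (hq.sub hvl)
        ((pi_norm_lt_iff two_pos).2 fun l => ?_)).mono fun k hk => Or.inr (sub_eq_zero.1 hk)
      by_cases e : l = i
      · subst e; simp only [Pi.sub_apply, Pi.smul_apply, Pi.single_eq_same, smul_eq_mul]
        rw [Real.norm_eq_abs, abs_lt]; constructor <;> linarith
      · simpa [Pi.single_eq_of_ne e] using hoth l e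
  have hcl : ∀ᶠ k in U, ‖v k - (2 : ℝ) • Pi.single i (1 : ℝ)‖ < 1 / 10 := by
    have := (tendsto_iff_norm_sub_tendsto_zero.1 hvl).eventually
      (Iio_mem_nhds (show (0 : ℝ) < 1 / 10 by norm_num))
    exact this
  obtain ⟨k, hk1, hk2⟩ := (hev.and hcl).exists
  have c0 := fun l => abs_lt.1 ((norm_le_pi_norm _ l).trans_lt hk2)
  have ci := c0 i
  simp only [Pi.sub_apply, Pi.smul_apply, Pi.single_eq_same, smul_eq_mul] at ci
  have cl : ∀ l, l ≠ i → |v k l| < 1 / 10 := fun l hl => by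
    have := c0 l
    simp only [Pi.sub_apply, Pi.smul_apply, Pi.single_eq_of_ne hl, smul_eq_mul] at this
    rw [abs_lt]; constructor <;> linarith
  have a0 := e0 k
  have a1 := e1 k
  have hvi : |v k i| = v k i := abs_of_pos (by linarith)
  obtain ⟨a, b, hab, h⟩ := hs k _ (hv k) (fun e => by rw [e] at ci; simp at ci; linarith)
  have hvk : 2 * (1 + e k) - e k / 10 ≤ v k i := by
    by_cases ea : a = i
    · subst ea
      have := cl b hab.symm
      rw [hvi] at h
      nlinarith
    · have h1 := cl a ea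
      have h2 : |v k b| ≤ 3 := by
        by_cases eb : b = i
        · subst eb; rw [hvi]; linarith
        · linarith [cl b eb]
      nlinarith
  have hb := hb k i j hj.symm
  have cj := abs_lt.1 (cl j hj)
  simp only [Pi.add_apply, Pi.smul_apply, smul_eq_mul, ht, Pi.single_eq_same,
    Pi.single_eq_of_ne hj.symm] at hb
  rcases hk1 with h1 | h1 <;> rw [h1] at hb
  · simp only [Pi.zero_apply] at hb
    rw [abs_of_pos (by linarith), abs_of_pos (by linarith)] at hb
    nlinarith
  · rw [abs_of_neg (by linarith), abs_of_pos (by linarith)] at hb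
    nlinarith

end Pool.Agent.H.MP_78373f_an
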