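import Mathlib
import Pool.Agent.H.MP_78373f_an.C
import Pool.Agent.H.MP_78373f_an.D

set_option autoImplicit false

namespace Pool.Agent.H.MP_78373f_an
open Finset

noncomputable section

abbrev K := {p : J × J // p.1 ≠ p.2} × Bool

def TT (ε : ℝ) : (J → ℝ) →ₗ[ℝ] (K → ℝ) where
  toFun x := fun k => (x k.1.1.1 + (if k.2 then ε else -ε) * x k.1.1.2) / (1 + ε)
  map_add' x y := by ext k; simp only [Pi.add_apply]; ring
  map_smul' c x := by ext k; simp only [Pi.smul_apply, smul_eq_mul, RingHom.id_apply]; ring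

variable {ε : ℝ}

lemma n1 (h : 0 < ε) (x : J → ℝ) {i j : J} (hij : i ≠ j) :
    |x i| + ε * |x j| ≤ (1 + ε) * ‖TT ε x‖ := by
  have a := norm_le_pi_norm (TT ε x) (⟨(i, j), hij⟩, true)
  have b := norm_le_pi_norm (TT ε x) (⟨(i, j), hij⟩, false)
  simp only [TT, LinearMap.coe_mk, AddHom.coe_mk, Real.norm_eq_abs, abs_div,
    abs_of_pos (show 0 < 1 + ε by linarith), div_le_iff₀ (show 0 < 1 + ε by linarith),
    if_true, Bool.false_eq_true, if_false] at a b ⊢
  have a := abs_le.1 a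
  have b := abs_le.1 b
  rcases abs_cases (x i) with h1 | h1 <;> rcases abs_cases (x j) with h2 | h2 <;>
    rw [h1.1, h2.1] <;> linarith [a.1, a.2, b.1, b.2]

lemma n0 (h : 0 < ε) (x : J → ℝ) (k : K) :
    ‖TT ε x k‖ * (1 + ε) ≤ |x k.1.1.1| + ε * |x k.1.1.2| := by
  simp only [TT, LinearMap.coe_mk, AddHom.coe_mk, Real.norm_eq_abs, abs_div,
    abs_of_pos (show 0 < 1 + ε by linarith)]
  rw [div_mul_cancel₀ _ (by linarith)]
  refine (abs_add_le _ _).trans ?_
  rw [abs_mul]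
  cases k.2 <;> simp [abs_of_pos h]

lemma n2 (h : 0 < ε) (x : J → ℝ) : ‖TT ε x‖ ≤ ‖x‖ :=
  (pi_norm_le_iff_of_nonneg (norm_nonneg _)).2 fun k => by
    have a := n0 h x k
    have b : |x k.1.1.1| ≤ ‖x‖ := norm_le_pi_norm x _
    have c : |x k.1.1.2| ≤ ‖x‖ := norm_le_pi_norm x _
    by_contra hc
    push Not at hc
    nlinarith

lemma n3 (h : 0 < ε) (x : J → ℝ) (hx : 2 ≤ ‖TT ε x‖) :
    ∃ i j, i ≠ j ∧ 2 * (1 + ε) ≤ |x i| + ε * |x j| := by
  by_contra hc
  push Not at hc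
  have : ‖TT ε x‖ < 2 := (pi_norm_lt_iff two_pos).2 fun k => by
    have a := n0 h x k
    have b := hc _ _ k.1.2
    nlinarith
  linarith

lemma inj (h : 0 < ε) : Function.Injective (TT ε) := by
  rw [injective_iff_map_eq_zero]
  intro x hx
  ext i
  obtain ⟨j, hj⟩ := exists_ne i
  have := n1 h x hj.symm
  rw [hx, norm_zero, mul_zero] at this
  have h2 : 0 ≤ ε * |x j| := by positivity
  exact abs_nonpos_iff.1 (by linarith)

theorem main : ∃ (X : Type) (_ : NormedAddCommGroup X) (_ : NormedSpace ℝ X),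
    FiniteDimensional ℝ X ∧ ∃ a b : ℝ, 0 < a ∧ a < b ∧
    (∃ P : Set X, (∀ x, ∃ p ∈ P, ‖x - p‖ ≤ a) ∧ ∀ x ∈ P, ∀ y ∈ P, x ≠ y → 2 ≤ ‖x - y‖) ∧
    (∃ P : AddSubgroup X, (∀ x, ∃ p ∈ P, ‖x - p‖ ≤ 2) ∧ ∀ x ∈ P, ∀ y ∈ P, x ≠ y → 2 ≤ ‖x - y‖) ∧
    ∀ (P : AddSubgroup X) (r : ℝ), (∀ x, ∃ p ∈ P, ‖x - p‖ ≤ r) →
      (∀ x ∈ P, ∀ y ∈ P, x ≠ y → 2 ≤ ‖x - y‖) → b ≤ r := by
  obtain ⟨ε, e0, e1, hcore⟩ := core (ι := J)
  let Φ := LinearEquiv.ofInjective (TT ε) (inj e0)
  have hΦ : ∀ x, ‖Φ x‖ = ‖TT ε x‖ := fun x => rfl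
  set a : ℝ := 2 * (1 + ε) / (2 + ε) with ha
  have a0 : 0 < a := by positivity
  have a1 : a * (2 + ε) = 2 * (1 + ε) := by rw [ha]; field_simp
  refine ⟨LinearMap.range (TT ε), inferInstance, inferInstance, inferInstance, a, 1 + ε / 2, a0,
    by rw [ha, div_lt_iff₀ (by positivity)]; nlinarith, ?_, ?_, ?_⟩
  · refine ⟨(fun p : J → ℤ => Φ fun i => a * p i) '' KP, fun x => ?_, ?_⟩
    · obtain ⟨x, rfl⟩ := Φ.surjective x
      obtain ⟨p, hp, h⟩ := kp_cov fun i => ⌊x i / a⌋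
      refine ⟨_, ⟨p, hp, rfl⟩, ?_⟩
      rw [← map_sub, hΦ]
      refine (n2 e0 _).trans ((pi_norm_le_iff_of_nonneg a0.le).2 fun i => ?_)
      have h1 := Int.floor_le (x i / a)
      have h2 := (Int.lt_floor_add_one (x i / a)).le
      rw [le_div_iff₀ a0] at h1
      rw [div_le_iff₀ a0] at h2
      simp only [Pi.sub_apply, Real.norm_eq_abs, abs_le]
      rcases h i with e | e <;> rw [e] <;> push_cast <;> constructor <;> nlinarith
    · rintro _ ⟨p, hp, rfl⟩ _ ⟨q, hq, rfl⟩ hne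
      rw [← map_sub, hΦ]
      have habs : ∀ i (c : ℤ), c ≤ |p i - q i| →
          a * c ≤ |((fun i => a * (p i : ℝ)) - fun i => a * (q i : ℝ)) i| := by
        intro i c hc
        simp only [Pi.sub_apply]
        rw [← mul_sub, abs_mul, abs_of_pos a0]
        gcongr
        exact_mod_cast hc
      by_contra hlt
      push Not at hlt
      have hl := mul_lt_mul_of_pos_left hlt (show 0 < 1 + ε by linarith)
      rcases kp_sep hp hq (fun e => hne (by rw [e])) with ⟨i, h⟩ | ⟨i, j, hij, h1, h2⟩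
      · obtain ⟨j, hj⟩ := exists_ne i
        have b1 := n1 e0 ((fun i => a * (p i : ℝ)) - fun i => a * (q i : ℝ)) hj.symm
        have b2 := habs i 4 h
        have b3 := mul_nonneg e0.le
          (abs_nonneg (((fun i => a * (p i : ℝ)) - fun i => a * (q i : ℝ)) j))
        push_cast at b2
        nlinarith
      · have b1 := n1 e0 ((fun i => a * (p i : ℝ)) - fun i => a * (q i : ℝ)) hij
        have b2 := habs i 2 h1
        have b3 := mul_le_mul_of_nonneg_left (habs j 1 h2) e0.le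
        push_cast at b2 b3
        nlinarith
  · let ψ : (J → ℤ) →+ LinearMap.range (TT ε) := Φ.toLinearMap.toAddMonoidHom.comp
      { toFun := fun p i => 4 * (p i : ℝ)
        map_zero' := by ext; simp
        map_add' := fun p q => by ext; simp [mul_add] }
    have hψ : ∀ p, ψ p = Φ fun i => 4 * (p i : ℝ) := fun _ => rfl
    refine ⟨ψ.range, fun x => ?_, ?_⟩
    · obtain ⟨x, rfl⟩ := Φ.surjective x
      refine ⟨_, ⟨fun i => round (x i / 4), rfl⟩, ?_⟩
      rw [hψ, ← map_sub, hΦ]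
      refine (n2 e0 _).trans ((pi_norm_le_iff_of_nonneg two_pos.le).2 fun i => ?_)
      have := abs_le.1 (abs_sub_round (x i / 4))
      simp only [Pi.sub_apply, Real.norm_eq_abs, abs_le]
      constructor <;> linarith
    · rintro _ ⟨p, rfl⟩ _ ⟨q, rfl⟩ hne
      rw [← map_sub, hψ, hΦ]
      obtain ⟨i, hi⟩ := Function.ne_iff.1 (fun e => hne (by rw [e]) : p ≠ q)
      obtain ⟨j, hj⟩ := exists_ne i
      have b1 := n1 e0 (fun i => 4 * (((p - q) i : ℤ) : ℝ)) hj.symm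
      have b2 : (1 : ℝ) ≤ |(((p - q) i : ℤ) : ℝ)| := by
        exact_mod_cast Int.one_le_abs (sub_ne_zero.2 hi)
      have b3 := mul_nonneg e0.le (abs_nonneg (4 * (((p - q) j : ℤ) : ℝ)))
      simp only [abs_mul, abs_of_pos (show (0 : ℝ) < 4 by norm_num)] at b1 b3
      by_contra hlt
      push Not at hlt
      have hl := mul_lt_mul_of_pos_left hlt (show 0 < 1 + ε by linarith)
      nlinarith
  · intro P r hd hs
    by_contra hr
    push Not at hr
    refine hcore (P.comap Φ.toLinearMap.toAddMonoidHom) (fun v hv h0 => n3 e0 v ?_) fun x => ?_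
    · have := hs _ hv 0 P.zero_mem (fun e => h0 (Φ.map_eq_zero_iff.1 e))
      rwa [sub_zero] at this
    · obtain ⟨p, hp, h⟩ := hd (Φ x)
      obtain ⟨p, rfl⟩ := Φ.surjective p
      refine ⟨p, hp, fun i j hij => ?_⟩
      rw [← map_sub, hΦ] at h
      have := n1 e0 (x - p) hij
      simp only [Pi.sub_apply] at this
      nlinarith

end
end Pool.Agent.H.MP_78373f_an
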